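import Pool.Agent.FS.SimpleGrowth.Cmp

/-! Lieb's Simple equation: comparison of two solutions with different potentials and
energies, for integrable nonnegative potentials. -/

open MeasureTheory Filter Laplacian
open scoped ContDiff

namespace Pool.Agent.Results.MP_dec75e_mp.SimpleComparison

/-- `(e, ρ, u)` solves the Simple equation `-Δu + 4eu = (1-u)v + 2ρe (u*u)` (in the sense of
distributions) and `e = ρ/2 ∫ v(1-u)`, with `u` integrable and `0 ≤ u ≤ 1`. -/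
structure IsSol {d : ℕ} (v : EuclideanSpace ℝ (Fin d) → ℝ) (e ρ : ℝ)
    (u : EuclideanSpace ℝ (Fin d) → ℝ) : Prop where
  e_pos : 0 < e
  ρ_pos : 0 < ρ
  integrable : Integrable u
  bounds : ∀ᵐ x, 0 ≤ u x ∧ u x ≤ 1
  eqn : ∀ φ : EuclideanSpace ℝ (Fin d) → ℝ, ContDiff ℝ ∞ φ → HasCompactSupport φ →
    ∫ x, u x * (-(Δ φ) x + 4 * e * φ x)
      = ∫ x, ((1 - u x) * v x + 2 * ρ * e * ∫ y, u y * u (x - y)) * φ x
  energy : e = ρ / 2 * ∫ x, v x * (1 - u x)

open Pool.Agent.Lib.MP_dec75e_mp.SE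

theorem IsSol.sol {d : ℕ} [Nontrivial (EuclideanSpace ℝ (Fin d))]
    {v u : EuclideanSpace ℝ (Fin d) → ℝ} {e ρ : ℝ} (hv : Integrable v)
    (h : IsSol v e ρ u) : ∃ U, Sol v e ρ U := by
  have hm := h.integrable.aestronglyMeasurable
  let U := fun x => max 0 (min (hm.mk u x) 1)
  have hU : U01 U := ⟨measurable_const.max (hm.stronglyMeasurable_mk.measurable.min
    measurable_const), fun x => le_max_left _ _, fun x => max_le zero_le_one (min_le_right _ _)⟩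
  have hUu : U =ᵐ[volume] u := by
    filter_upwards [hm.ae_eq_mk, h.bounds] with x h1 h2
    simp only [U, ← h1, min_eq_left h2.2, max_eq_right h2.1]
  have iU : Integrable U := h.integrable.congr hUu.symm
  have hcv : cv U U = cv u u := by rw [cv_congr hUu, cv_comm, cv_congr hUu]
  refine ⟨U, hU, iU, fun μ hμ => ?_, ?_⟩
  · refine mild_of_weak hμ iU (src_int hv (NI.of hU iU) hU iU) fun φ h1 h2 => ?_
    have bφ : BM φ := by
      obtain ⟨C, hC⟩ := h1.continuous.bounded_above_of_compact_support h2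
      exact ⟨h1.continuous.measurable, C, hC⟩
    have j1 := (resolvent (by linarith [h.e_pos] : 0 < 4 * e) h1 h2).1.int_mul iU
    have j2 := (bφ.int_mul iU).const_mul (μ - 4 * e)
    have j3 := bφ.int_mul (src_int (m := 0) (c := 2 * e * ρ) hv (NI.of hU iU) hU iU)
    have h3 : ∫ x, U x * (-(Δ φ) x + 4 * e * φ x) = ∫ x, src v 0 (2 * e * ρ) U U x * φ x := by
      refine Eq.trans ?_ ((h.eqn φ h1 h2).trans ?_)
      · exact integral_congr_ae (hUu.mono fun x hx => by simp only [hx])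
      · refine integral_congr_ae (hUu.mono fun x hx => ?_)
        simp only [src, hcv, hx]
        unfold cv
        ring
    calc _ = ∫ x, (U x * (-(Δ φ) x + 4 * e * φ x) + (μ - 4 * e) * (U x * φ x)) := by
          congr with x; ring
      _ = ∫ x, (src v 0 (2 * e * ρ) U U x * φ x + (μ - 4 * e) * (U x * φ x)) := by
          rw [integral_add j1 j2, integral_add j3 j2, h3]
      _ = _ := by congr with x; unfold src; ring
  · have h1 : ∫ x, v x * (1 - u x) = (∫ x, v x) - ∫ x, v x * U x := by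
      rw [← integral_sub hv (hU.bm.int_mul hv)]
      exact integral_congr_ae (hUu.mono fun x hx => by simp only [hx]; ring)
    rw [← h1]
    linarith [h.energy]

theorem result (d : ℕ) (hd : 0 < d) (v₁ v₂ : EuclideanSpace ℝ (Fin d) → ℝ)
    (hv₁ : ∀ x, 0 ≤ v₁ x) (hi₁ : Integrable v₁) (hv₂ : ∀ x, 0 ≤ v₂ x) (hi₂ : Integrable v₂)
    (c : ℝ) (hc : ∀ᵐ x, v₁ x ≤ c * v₂ x)
    (e₁ e₂ ρ₁ ρ₂ : ℝ) (u₁ u₂ : EuclideanSpace ℝ (Fin d) → ℝ)
    (h₁ : IsSol v₁ e₁ ρ₁ u₁) (h₂ : IsSol v₂ e₂ ρ₂ u₂) (he : e₁ ≤ e₂) :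
    ρ₂ / ρ₁ ≤ max (c * (e₂ / e₁)) ((e₂ / e₁) ^ ((d : ℝ) / 2)) := by
  have : Nonempty (Fin d) := ⟨⟨0, hd⟩⟩
  have : Nontrivial (EuclideanSpace ℝ (Fin d)) := inferInstance
  obtain ⟨U₁, s₁⟩ := h₁.sol hi₁
  obtain ⟨U₂, s₂⟩ := h₂.sol hi₂
  have e0 := h₁.e_pos
  have r1 : 1 ≤ e₂ / e₁ := (one_le_div e0).2 he
  have r0 : 0 ≤ e₂ / e₁ := zero_le_one.trans r1
  rw [div_le_iff₀ h₁.ρ_pos]
  refine Gr.cmp_all (l := √(e₂ / e₁)) hv₁ hi₁ hv₂ hi₂ hc e0 (Real.one_le_sqrt.2 r1) ?_ h₁.ρ_pos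
    h₂.ρ_pos s₁ s₂ ?_ ?_
  · rw [Real.sq_sqrt r0, div_mul_cancel₀ _ e0.ne']
  · rw [Real.sq_sqrt r0]
    exact le_max_left _ _
  · rw [finrank_euclideanSpace_fin, Real.sqrt_eq_rpow, ← Real.rpow_natCast, ← Real.rpow_mul r0]
    exact le_trans (le_of_eq (by congr 1; ring)) (le_max_right _ _)

end Pool.Agent.Results.MP_dec75e_mp.SimpleComparison
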