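import Pool.Agent.Lib.MP_dec75e_mp.Fin

open MeasureTheory Filter
open scoped Real Topology

namespace Pool.Agent.Results.MP_dec75e_mp.TanTail

open Pool.Agent.BoseTail

theorem result (v f h : E3 → ℝ) (a η : ℝ)
    (hv : Continuous v) (hv0 : ∀ x, 0 ≤ v x) (hvr : ∀ x y, ‖x‖ = ‖y‖ → v x = v y)
    (hvc : HasCompactSupport v)
    (hf : ContDiff ℝ 2 f) (hfe : ∀ x, Laplacian.laplacian f x = v x * f x)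
    (hfa : Tendsto (fun x => ‖x‖ * (1 - f x)) (cocompact E3) (𝓝 a)) (ha : 0 < a)
    (hh : ContDiff ℝ 3 h) (hh1 : ∀ z, 1 < ‖z‖ → h z = 0) (hh0 : h ≠ 0) (hη : 0 < η) :
    ∃ A : ℝ, 0 < A ∧ ∀ (N : ℕ) (L : ℝ) [Fact (0 < L)] (ψ : Cf N L → ℂ) (k₀ : E3) (δ : ℝ),
      L ≤ N → 0 < δ → A ^ 3 * (N / L ^ 3) ≤ δ ^ 3 → A * δ ≤ ‖k₀‖ → A * ‖k₀‖ ≤ 1 → IsGround v ψ →
      (Summable fun n : {n : Fin 3 → ℤ // n ≠ 0} => wt h k₀ δ (kvec L n)) ∧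
      0 < ∑' n : {n : Fin 3 → ℤ // n ≠ 0}, wt h k₀ δ (kvec L n) ∧
      (Summable fun n : {n : Fin 3 → ℤ // n ≠ 0} => wt h k₀ δ (kvec L n) *
        (2 * (N / L ^ 3) * Mom ψ n / gB (‖kvec L n‖ / √(8 * π * (N / L ^ 3) * a)))) ∧
      |(∑' n : {n : Fin 3 → ℤ // n ≠ 0}, wt h k₀ δ (kvec L n) *
          (2 * (N / L ^ 3) * Mom ψ n / gB (‖kvec L n‖ / √(8 * π * (N / L ^ 3) * a)))) -
          ∑' n : {n : Fin 3 → ℤ // n ≠ 0}, wt h k₀ δ (kvec L n)| ≤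
        η * ∑' n : {n : Fin 3 → ℤ // n ≠ 0}, wt h k₀ δ (kvec L n) := by
  obtain ⟨A, hA, H⟩ := tan_tail ⟨hv, hv0, hvr, hvc, hf, hfe, hfa, ha⟩ hh hh1 hh0
    (lt_min hη one_pos) (min_le_right η 1)
  refine ⟨A, hA, fun N L _ ψ k₀ δ h1 h2 h3 h4 h5 h6 => ?_⟩
  obtain ⟨s1, s2, s3, s4⟩ := H N L ψ k₀ δ h1 h2 h3 h4 h5 h6
  exact ⟨s1, s2, s3, s4.trans (mul_le_mul_of_nonneg_right (min_le_left η 1) s2.le)⟩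

end Pool.Agent.Results.MP_dec75e_mp.TanTail
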